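import Pool.Agent.N206.HJ.Stm

set_option autoImplicit false

namespace Pool.Agent.N616.HJ

open Pool.Agent.N206.HJ MvPowerSeries

variable (p : ℕ) [Fact p.Prime]

/-- the elementary automorphisms -/
theorem elem (h4 : S_EXIST p) (N : ℕ) : ∃ g ∈ Ga p (N + 1), Tr 1 (X 0 ^ (N + 2)) g ∧ Poly g := by
  obtain ⟨g, hg, h⟩ := h4 (N + 1) (by omega) (fun i => if i = 1 then X 0 ^ (N + 2) else 0) (by
    intro i
    split_ifs
    · exact Xpow_mem 0 (N + 2)
    · exact Ideal.zero_mem _)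
  have h1 : g (X 1) = X 1 + X 0 ^ (N + 2) := by rw [h 1, if_pos rfl]
  have h2 : ∀ i : Fin 3, i ≠ 1 → g (X i) = X i := by
    intro i hi
    rw [h i, if_neg hi, add_zero]
  refine ⟨g, hg, ⟨h1, h2⟩, ?_⟩
  intro i
  by_cases hi : i = 1
  · subst hi
    refine ⟨MvPolynomial.X 1 + MvPolynomial.X 0 ^ (N + 2), ?_⟩
    rw [h1]
    simp
  · refine ⟨MvPolynomial.X i, ?_⟩
    rw [h2 i hi]
    simp

theorem Xpow_inj {a b : ℕ} (h : (X 0 ^ a : A p) = X 0 ^ b) : a = b := by
  have h1 := congrArg (coeff (Finsupp.single 0 a)) h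
  rw [coeff_X_pow, coeff_X_pow, if_pos rfl] at h1
  split_ifs at h1 with h2
  · have h3 := DFunLike.congr_fun h2 0
    simpa using h3
  · exact absurd h1 one_ne_zero

theorem t_FIN1 (h1 : S_KEY p) (h2 : S_GRP p) (h3 : S_CENT p) (h4 : S_EXIST p) : S_FIN1 p := by
  intro φ G0 hG
  have hnorm : ∀ k, 1 ≤ k → ((Ga p k).subgroupOf G0).Normal := by
    intro k hk
    refine ⟨fun n hn g => ?_⟩
    rw [Subgroup.mem_subgroupOf] at hn ⊢
    have e : ((g * n * g⁻¹ : G0) : Au p) = (g : Au p) * n * (g : Au p)⁻¹ * (n : Au p)⁻¹ * n := by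
      simp
    rw [e]
    refine (Ga p k).mul_mem (Ga_anti (by omega) (h2.1 1 k g n (hG.le g.2) hn)) hn
  have hfi : ∀ k, ((Ga p k).subgroupOf G0).FiniteIndex := by
    intro k
    refine ⟨fun h => ?_⟩
    exact h2.2.2 k (Subgroup.relIndex_eq_zero_of_le_right hG.le h)
  have hinf : Infinite G0 := by
    choose g hg hT hP using elem p h4
    have hmem : ∀ N, g N ∈ G0 := fun N => hG.poly _ (Ga_anti (by omega) (hg N)) (hP N)
    refine Infinite.of_injective (fun N => (⟨g N, hmem N⟩ : G0)) ?_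
    intro a b hab
    have h5 : g a = g b := congrArg Subtype.val hab
    have h6 := (hT a).1
    rw [h5, (hT b).1] at h6
    have h7 := Xpow_inj p (add_left_cancel h6)
    omega
  refine ⟨?_, ?_⟩
  · intro g hg
    by_contra hcon
    push Not at hcon
    apply hg
    apply Subtype.ext
    refine h2.2.1 _ fun k => ?_
    have h5 := hcon ((Ga p (k + 1)).subgroupOf G0) (hnorm _ (by omega)) (hfi _)
    exact Ga_anti (by omega) (Subgroup.mem_subgroupOf.1 h5)
  · intro H hH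
    have hHinf : Infinite H := by
      by_contra hc
      rw [not_infinite_iff_finite] at hc
      have : Finite G0 := (Subgroup.finite_iff_finite_and_finiteIndex (H := H)).2 ⟨hc, hH⟩
      exact not_finite G0
    refine ⟨hHinf, ?_⟩
    intro N hN hNne
    -- step a
    have hC : H.normalCore ≠ ⊥ := by
      intro hc
      have h5 : H.normalCore.FiniteIndex := inferInstance
      rw [hc] at h5
      have h6 : Finite G0 := (Subgroup.finite_iff_finite_and_finiteIndex (H := (⊥ : Subgroup G0))).2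
        ⟨inferInstance, h5⟩
      exact not_finite G0
    obtain ⟨J0, hJ0⟩ := h1 φ G0 hG 1 le_rfl (H.normalCore.map G0.subtype)
      (Subgroup.map_subtype_le _) (by
        intro hc
        exact hC ((Subgroup.map_eq_bot_iff_of_injective _ G0.subtype_injective).1 hc))
      (by
        intro h hh _ u' hu'
        obtain ⟨u, hu, rfl⟩ := Subgroup.mem_map.1 hu'
        let h' : G0 := ⟨h, hh⟩
        have hm : h' * u * h'⁻¹ ∈ H.normalCore := (Subgroup.normalCore_normal H).conj_mem u hu _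
        refine Subgroup.mem_map.2 ⟨h' * u * h'⁻¹, hm, ?_⟩
        simp only [Subgroup.coe_subtype, Subgroup.coe_mul, InvMemClass.coe_inv, h'])
    have hJH : ∀ g : G0, (g : Au p) ∈ Ga p (J0 + 1) → g ∈ H := by
      intro g hg
      obtain ⟨u, hu, hug⟩ := hJ0 g g.2 (Ga_anti (by omega) hg)
      have h5 : u = g := Subtype.ext hug
      exact Subgroup.normalCore_le H (h5 ▸ hu)
    -- step b
    have hconj : ∀ h ∈ G0, h ∈ Ga p (J0 + 1) →
        ∀ u ∈ ((N.map H.subtype).map G0.subtype) ⊓ Ga p (J0 + 1),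
        h * u * h⁻¹ ∈ ((N.map H.subtype).map G0.subtype) ⊓ Ga p (J0 + 1) := by
      intro h hh hhJ u hu
      obtain ⟨hu1, huJ⟩ := Subgroup.mem_inf.1 hu
      obtain ⟨u', hu2, rfl⟩ := Subgroup.mem_map.1 hu1
      obtain ⟨n, hn, rfl⟩ := Subgroup.mem_map.1 hu2
      refine Subgroup.mem_inf.2 ⟨?_, (Ga p (J0 + 1)).mul_mem ((Ga p (J0 + 1)).mul_mem hhJ huJ)
        ((Ga p (J0 + 1)).inv_mem hhJ)⟩
      have hhH : (⟨h, hh⟩ : G0) ∈ H := hJH _ hhJ
      let h' : H := ⟨⟨h, hh⟩, hhH⟩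
      have hm : h' * n * h'⁻¹ ∈ N := hN.conj_mem n hn _
      refine ⟨((h' * n * h'⁻¹ : H) : G0), ⟨h' * n * h'⁻¹, hm, rfl⟩, ?_⟩
      simp only [Subgroup.coe_subtype, Subgroup.coe_mul, InvMemClass.coe_inv, h']
    have hne : ((N.map H.subtype).map G0.subtype) ⊓ Ga p (J0 + 1) ≠ ⊥ := by
      obtain ⟨x, hx, hx1⟩ : ∃ x : H, x ∈ N ∧ x ≠ 1 := by
        by_contra hcon
        push Not at hcon
        exact hNne ((Subgroup.eq_bot_iff_forall N).2 hcon)
      have hxne : ((x : G0) : Au p) ≠ 1 := by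
        intro h
        exact hx1 (Subtype.ext (Subtype.ext h))
      have hx1' : ((x : G0) : Au p) ∈ Ga p 1 := hG.le (x : G0).2
      obtain ⟨h, hhJ, hhP, hhne⟩ := h3 _ hx1' hxne (J0 + 1)
      have hhG : h ∈ G0 := hG.poly h (Ga_anti (by omega) hhJ) hhP
      have hhH : (⟨h, hhG⟩ : G0) ∈ H := hJH _ hhJ
      intro hbot
      have hmem : ((x : G0) : Au p) * h * ((x : G0) : Au p)⁻¹ * h⁻¹ ∈
          ((N.map H.subtype).map G0.subtype) ⊓ Ga p (J0 + 1) := by
        refine Subgroup.mem_inf.2 ⟨?_, Ga_anti (by omega) (h2.1 1 (J0 + 1) _ _ hx1' hhJ)⟩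
        let h' : H := ⟨⟨h, hhG⟩, hhH⟩
        have hm : x * (h' * x⁻¹ * h'⁻¹) ∈ N := N.mul_mem hx (hN.conj_mem _ (N.inv_mem hx) _)
        refine ⟨((x * (h' * x⁻¹ * h'⁻¹) : H) : G0), ⟨x * (h' * x⁻¹ * h'⁻¹), hm, rfl⟩, ?_⟩
        simp only [Subgroup.coe_subtype, Subgroup.coe_mul, InvMemClass.coe_inv, h', mul_assoc]
      rw [hbot, Subgroup.mem_bot] at hmem
      exact hhne hmem
    obtain ⟨J', hJ'⟩ := h1 φ G0 hG (J0 + 1) (by omega) _
      (le_trans inf_le_left (Subgroup.map_subtype_le _)) hne hconj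
    -- step c
    have hle : (Ga p J').subgroupOf G0 ≤ N.map H.subtype := by
      intro g hg
      obtain ⟨⟨u, hu, hug⟩, _⟩ := hJ' g g.2 (Subgroup.mem_subgroupOf.1 hg)
      have h5 : u = g := Subtype.ext hug
      exact h5 ▸ hu
    have hfi1 : (N.map H.subtype).FiniteIndex := by
      have := hfi J'
      exact Subgroup.finiteIndex_of_le hle
    have h5 : ((N.map H.subtype).subgroupOf H).FiniteIndex := inferInstance
    have h6 : (N.map H.subtype).subgroupOf H = N :=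
      Subgroup.comap_map_eq_self_of_injective H.subtype_injective N
    rwa [h6] at h5

end Pool.Agent.N616.HJ
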