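import Pool.Agent.N206.HJ.Stm

set_option autoImplicit false

namespace Pool.Agent.N616.HJ

open Module Module.End

theorem fin_of_alg {q : ℕ} [Fact q.Prime] {K : Type*} [Field K] [IsAlgClosed K] {V : Type*}
    [AddCommGroup V] [Module K V] [FiniteDimensional K V] {E : Type*} [CommGroup E]
    (f : E →* Module.End K V) (hq : (q : K) ≠ 0) (hE : ∀ x : E, x ^ q = 1)
    (hf : Function.Injective f) : Finite E := by
  have hpow : ∀ x, (f x) ^ q = 1 := fun x => by rw [← map_pow, hE, map_one]
  have hss : ∀ x, (f x).IsSemisimple := by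
    intro x
    have hsep : (Polynomial.X ^ q - Polynomial.C (1 : K)).Separable :=
      Polynomial.separable_X_pow_sub_C 1 hq one_ne_zero
    apply Module.End.isSemisimple_of_squarefree_aeval_eq_zero hsep.squarefree
    simp [hpow]
  have hcomm : ∀ x y, Commute (f x) (f y) := fun x y => (Commute.all x y).map f
  have heig : ∀ x μ, (f x).maxGenEigenspace μ = (f x).eigenspace μ := fun x μ =>
    (hss x).isFinitelySemisimple.maxGenEigenspace_eq_eigenspace μ
  have htop : ⨆ χ : E → K, ⨅ i, (f i).maxGenEigenspace (χ i) = ⊤ :=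
    iSup_iInf_maxGenEigenspace_eq_top_of_iSup_maxGenEigenspace_eq_top_of_commute _
      (fun i j _ => hcomm i j) (fun i => iSup_maxGenEigenspace_eq_top (f i))
  have hind : iSupIndep fun χ : E → K => ⨅ i, (f i).maxGenEigenspace (χ i) :=
    independent_iInf_maxGenEigenspace_of_forall_mapsTo _
      (fun i j φ => mapsTo_maxGenEigenspace_of_comm (hcomm j i) φ)
  have hfin : {χ : E → K | (⨅ i, (f i).maxGenEigenspace (χ i)) ≠ ⊥}.Finite :=
    Submodule.finite_ne_bot_of_iSupIndep hind
  have hmem : ∀ (χ : E → K) (v : V), v ∈ (⨅ i, (f i).maxGenEigenspace (χ i)) →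
      ∀ x, f x v = χ x • v := by
    intro χ v hv x
    have h1 := (Submodule.mem_iInf _).1 hv x
    rw [heig] at h1
    exact mem_eigenspace_iff.1 h1
  have hR : {a : K | a ^ q = 1}.Finite := by
    have h0 : (Polynomial.X ^ q - Polynomial.C (1 : K)) ≠ 0 :=
      Polynomial.X_pow_sub_C_ne_zero (Fact.out : q.Prime).pos 1
    refine (Polynomial.finite_setOfPred_isRoot h0).subset ?_
    intro a ha
    simp only [Set.mem_ofPred_eq] at ha
    simp [Polynomial.IsRoot, ha]
  have hval : ∀ χ ∈ {χ : E → K | (⨅ i, (f i).maxGenEigenspace (χ i)) ≠ ⊥}, ∀ x : E,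
      (χ x) ^ q = 1 := by
    intro χ hχ x
    obtain ⟨v, hv, hv0⟩ := Submodule.exists_mem_ne_zero_of_ne_bot hχ
    have h1 : ∀ k : ℕ, ((f x) ^ k) v = (χ x) ^ k • v := by
      intro k
      induction k with
      | zero => simp
      | succ k ih =>
        rw [pow_succ', Module.End.mul_apply, ih, map_smul, hmem χ v hv x, smul_smul, pow_succ]
    have h2 := h1 q
    rw [hpow, Module.End.one_apply] at h2
    have h3 : ((χ x) ^ q - 1) • v = 0 := by rw [sub_smul, one_smul, ← h2, sub_self]
    rcases smul_eq_zero.1 h3 with h | h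
    · exact sub_eq_zero.1 h
    · exact absurd h hv0
  have : Finite {χ : E → K | (⨅ i, (f i).maxGenEigenspace (χ i)) ≠ ⊥} := hfin.to_subtype
  have : Finite {a : K | a ^ q = 1} := hR.to_subtype
  let F : E → ({χ : E → K | (⨅ i, (f i).maxGenEigenspace (χ i)) ≠ ⊥} → {a : K | a ^ q = 1}) :=
    fun x χ => ⟨χ.1 x, hval χ.1 χ.2 x⟩
  refine Finite.of_injective F ?_
  intro x y hxy
  apply hf
  have h1 : (⊤ : Submodule K V) ≤ LinearMap.eqLocus (f x) (f y) := by
    rw [← htop]
    refine iSup_le fun χ => ?_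
    by_cases hχ : (⨅ i, (f i).maxGenEigenspace (χ i)) = ⊥
    · rw [hχ]
      exact bot_le
    · intro v hv
      rw [LinearMap.mem_eqLocus, hmem χ v hv x, hmem χ v hv y]
      have h2 := congrFun hxy ⟨χ, hχ⟩
      have h3 : χ x = χ y := congrArg Subtype.val h2
      rw [h3]
  ext v
  exact LinearMap.mem_eqLocus.1 (h1 trivial)

theorem t_LIN0 : Pool.Agent.N206.HJ.S_LIN0 := by
  intro q _ K _ n E _ f hq hE hinf hf
  let L := AlgebraicClosure K
  let g0 : GL (Fin n) K →* GL (Fin n) L := Matrix.GeneralLinearGroup.map (algebraMap K L)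
  let g1 : GL (Fin n) L →* Module.End L (Fin n → L) :=
    (Matrix.toLinAlgEquiv' : Matrix (Fin n) (Fin n) L ≃ₐ[L] _).toAlgHom.toRingHom.toMonoidHom.comp
      (Units.coeHom _)
  have h0 : Function.Injective g0 := by
    intro a b hab
    apply Units.ext
    ext i j
    have h1 := congrArg (fun c : GL (Fin n) L => (c : Matrix (Fin n) (Fin n) L) i j) hab
    simp only [g0] at h1
    exact (algebraMap K L).injective h1
  have h1 : Function.Injective g1 := by
    intro a b hab
    apply Units.ext
    exact (Matrix.toLinAlgEquiv' : Matrix (Fin n) (Fin n) L ≃ₐ[L] _).injective hab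
  have h2 : Finite E := by
    refine fin_of_alg (q := q) (K := L) (g1.comp (g0.comp f)) ?_ hE (h1.comp (h0.comp hf))
    intro h
    apply hq
    apply (algebraMap K L).injective
    rw [map_natCast, h, map_zero]
  exact not_finite E

end Pool.Agent.N616.HJ
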