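import Pool.Agent.N206.HJ.Stm

set_option autoImplicit false

namespace Pool.Agent.N616.HJ

open Module

section

variable {q : ℕ} [Fact q.Prime] {K : Type*} [Field K] [CharP K q] {P : Type*} [Group P] [Finite P]
  {W : Type*} [AddCommGroup W] [Module K W]

/-- a `q`-group acting linearly in characteristic `q` has a nonzero fixed vector -/
theorem fixed (hP : IsPGroup q P) [Nontrivial W] (ρ : P →* Module.End K W) :
    ∃ w : W, w ≠ 0 ∧ ∀ g, ρ g w = w := by
  classical
  obtain ⟨w0, hw0⟩ := exists_ne (0 : W)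
  have hq : ∀ x : W, q • x = 0 := by
    intro x
    have h : (q : K) • x = 0 := by rw [CharP.cast_eq_zero, zero_smul]
    rwa [Nat.cast_smul_eq_nsmul] at h
  let _ : Module (ZMod q) W := AddCommGroup.zmodModule (n := q) hq
  let S : Submodule (ZMod q) W := Submodule.span (ZMod q) (Set.range fun g : P => ρ g w0)
  have hfd : Module.Finite (ZMod q) ↥S :=
    FiniteDimensional.span_of_finite (ZMod q) (Set.finite_range _)
  have hfin : Finite ↥S := Module.finite_of_finite (ZMod q)
  have hst : ∀ (g : P) (x : W), x ∈ S → ρ g x ∈ S := by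
    intro g x hx
    induction hx using Submodule.span_induction with
    | mem x h =>
      obtain ⟨h', rfl⟩ := h
      refine Submodule.subset_span ⟨g * h', ?_⟩
      simp only [map_mul, Module.End.mul_apply]
    | zero => rw [map_zero]; exact S.zero_mem
    | add x y _ _ h1 h2 => rw [map_add]; exact S.add_mem h1 h2
    | smul a x _ h =>
      have h3 : ρ g (a • x) = a • ρ g x := by
        obtain ⟨k, rfl⟩ := ZMod.natCast_zmod_surjective a
        rw [Nat.cast_smul_eq_nsmul, Nat.cast_smul_eq_nsmul, map_nsmul]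
      rw [h3]
      exact S.smul_mem a h
  let _ : MulAction P S :=
    { smul := fun g x => ⟨ρ g x, hst g x x.2⟩
      one_smul := fun x => by
        apply Subtype.ext
        show ρ 1 (x : W) = x
        rw [map_one, Module.End.one_apply]
      mul_smul := fun g h x => by
        apply Subtype.ext
        show ρ (g * h) (x : W) = ρ g (ρ h x)
        rw [map_mul, Module.End.mul_apply] }
  have hw : w0 ∈ S := Submodule.subset_span ⟨1, by simp⟩
  have hnt : Nontrivial S := ⟨⟨w0, hw⟩, 0, fun h => hw0 (congrArg Subtype.val h)⟩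
  have hcard : q ∣ Nat.card S := by
    rw [Module.natCard_eq_pow_finrank (K := ZMod q), Nat.card_zmod]
    exact dvd_pow_self q (Module.finrank_pos).ne'
  have h0 : (0 : S) ∈ MulAction.fixedPoints P S := by
    intro g
    apply Subtype.ext
    show ρ g (0 : W) = 0
    rw [map_zero]
  obtain ⟨b, hb, hb0⟩ := hP.exists_fixed_point_of_prime_dvd_card_of_fixed_point S hcard h0
  refine ⟨b, fun h => hb0 (Subtype.ext h.symm), fun g => ?_⟩
  exact congrArg Subtype.val (hb g)

/-- the flag -/
def flag (ρ : P →* Module.End K W) : ℕ → Submodule K W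
  | 0 => ⊥
  | i + 1 => ⨅ g : P, (flag ρ i).comap (ρ g - 1)

omit [Finite P] in
theorem mem_flag (ρ : P →* Module.End K W) (i : ℕ) (v : W) :
    v ∈ flag ρ (i + 1) ↔ ∀ g, ρ g v - v ∈ flag ρ i := by
  show v ∈ (⨅ g : P, (flag ρ i).comap (ρ g - 1)) ↔ _
  rw [Submodule.mem_iInf]
  rfl

omit [Finite P] in
theorem flag_mono (ρ : P →* Module.End K W) (i : ℕ) : flag ρ i ≤ flag ρ (i + 1) := by
  induction i with
  | zero => exact bot_le
  | succ i ih =>
    intro v hv
    rw [mem_flag] at hv ⊢
    exact fun g => ih (hv g)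

omit [Finite P] in
theorem flag_st (ρ : P →* Module.End K W) (i : ℕ) (g : P) (v : W) (hv : v ∈ flag ρ i) :
    ρ g v ∈ flag ρ i := by
  have h1 := (mem_flag ρ i v).1 (flag_mono ρ i hv) g
  have h2 := (flag ρ i).add_mem h1 hv
  rwa [sub_add_cancel] at h2

theorem flag_lt (hP : IsPGroup q P) (ρ : P →* Module.End K W) (i : ℕ) (h : flag ρ i ≠ ⊤) :
    flag ρ i < flag ρ (i + 1) := by
  refine lt_of_le_of_ne (flag_mono ρ i) fun he => ?_
  have hnt : Nontrivial (W ⧸ flag ρ i) := Submodule.Quotient.nontrivial_iff.2 h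
  let τ : P →* Module.End K (W ⧸ flag ρ i) :=
    { toFun := fun g => (flag ρ i).mapQ (flag ρ i) (ρ g) (fun v hv => flag_st ρ i g v hv)
      map_one' := by
        apply LinearMap.ext
        intro x
        obtain ⟨v, rfl⟩ := Submodule.Quotient.mk_surjective _ x
        rw [Submodule.mapQ_apply, map_one]
        rfl
      map_mul' := fun g h => by
        apply LinearMap.ext
        intro x
        obtain ⟨v, rfl⟩ := Submodule.Quotient.mk_surjective _ x
        rw [Module.End.mul_apply, Submodule.mapQ_apply, Submodule.mapQ_apply,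
          Submodule.mapQ_apply, map_mul]
        rfl }
  obtain ⟨w, hw0, hw⟩ := fixed (K := K) hP τ
  obtain ⟨v, rfl⟩ := Submodule.Quotient.mk_surjective _ w
  apply hw0
  rw [Submodule.Quotient.mk_eq_zero, he, mem_flag]
  intro g
  have h1 := hw g
  have h2 : Submodule.Quotient.mk (ρ g v) = (Submodule.Quotient.mk v : W ⧸ flag ρ i) := h1
  exact (Submodule.Quotient.eq _).1 h2

theorem flag_dim [FiniteDimensional K W] (hP : IsPGroup q P) (ρ : P →* Module.End K W) (i : ℕ) :
    flag ρ i = ⊤ ∨ i ≤ Module.finrank K (flag ρ i) := by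
  induction i with
  | zero => exact Or.inr (Nat.zero_le _)
  | succ i ih =>
    by_cases h : flag ρ i = ⊤
    · left
      exact top_le_iff.1 (h ▸ flag_mono ρ i)
    · right
      rcases ih with h1 | h1
      · exact absurd h1 h
      · exact lt_of_le_of_lt h1 (Submodule.finrank_lt_finrank_of_lt (flag_lt hP ρ i h))

theorem flag_top [FiniteDimensional K W] (hP : IsPGroup q P) (ρ : P →* Module.End K W) :
    flag ρ (Module.finrank K W) = ⊤ := by
  rcases flag_dim hP ρ (Module.finrank K W) with h | h
  · exact h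
  · exact Submodule.eq_top_of_finrank_eq (le_antisymm (Submodule.finrank_le _) h)

/-- the elements which lower the flag by `j + 1` -/
def low (ρ : P →* Module.End K W) (j : ℕ) : Subgroup P where
  carrier := {g | ∀ i, ∀ v ∈ flag ρ (i + j + 1), ρ g v - v ∈ flag ρ i}
  one_mem' := by
    intro i v _
    rw [map_one, Module.End.one_apply, sub_self]
    exact Submodule.zero_mem _
  mul_mem' := by
    intro g h hg hh i v hv
    have h1 := flag_st ρ i g _ (hh i v hv)
    have h2 := hg i v hv
    have h3 := (flag ρ i).add_mem h1 h2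
    rw [map_mul, Module.End.mul_apply]
    rw [map_sub] at h3
    have e : ρ g (ρ h v) - ρ g v + (ρ g v - v) = ρ g (ρ h v) - v := by abel
    rwa [e] at h3
  inv_mem' := by
    intro g hg i v hv
    have h1 := flag_st ρ i g⁻¹ _ (hg i v hv)
    have h2 := (flag ρ i).neg_mem h1
    have e : ρ g⁻¹ (ρ g v) = v := by
      rw [← Module.End.mul_apply, ← map_mul, inv_mul_cancel, map_one, Module.End.one_apply]
    rw [map_sub, e, neg_sub] at h2
    exact h2

end

theorem t_LINP : Pool.Agent.N206.HJ.S_LINP := by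
  intro q _ K _ _ n G _ P _ f hP hf
  let g1 : GL (Fin n) K →* Module.End K (Fin n → K) :=
    (Matrix.toLinAlgEquiv' : Matrix (Fin n) (Fin n) K ≃ₐ[K] _).toAlgHom.toRingHom.toMonoidHom.comp
      (Units.coeHom _)
  have h1 : Function.Injective g1 := by
    intro a b hab
    apply Units.ext
    exact (Matrix.toLinAlgEquiv' : Matrix (Fin n) (Fin n) K ≃ₐ[K] _).injective hab
  let ρ : P →* Module.End K (Fin n → K) := g1.comp f
  have hρ : Function.Injective ρ := h1.comp hf
  have key : ∀ j, P.lowerCentralSeries j ≤ (low ρ j).map P.subtype := by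
    intro j
    induction j with
    | zero =>
      intro g hg
      refine ⟨⟨g, hg⟩, ?_, rfl⟩
      intro i v hv
      exact (mem_flag ρ i v).1 hv _
    | succ j ih =>
      rw [Subgroup.lowerCentralSeries_succ, Subgroup.commutator_le]
      intro x0 hx0 y0 hy0
      obtain ⟨x, hx, rfl⟩ := ih hx0
      let y : P := ⟨y0, hy0⟩
      refine ⟨(x * y * x⁻¹ * y⁻¹), ?_, rfl⟩
      intro i v hv
      have hv' : v ∈ flag ρ (i + j + 1 + 1) := by
        have : i + (j + 1) + 1 = i + j + 1 + 1 := by ring
        rwa [this] at hv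
      set u := ρ (x⁻¹ * y⁻¹) v with hu
      have hu1 : u ∈ flag ρ (i + j + 1 + 1) := flag_st ρ _ _ v hv'
      have e1 : ρ (x * y * x⁻¹ * y⁻¹) v = ρ x (ρ y u) := by
        rw [hu, ← Module.End.mul_apply, ← Module.End.mul_apply, ← map_mul, ← map_mul]
        congr 2
        group
      have e2 : v = ρ y (ρ x u) := by
        rw [hu, ← Module.End.mul_apply, ← Module.End.mul_apply, ← map_mul, ← map_mul]
        have : y * x * (x⁻¹ * y⁻¹) = 1 := by group
        rw [this, map_one, Module.End.one_apply]
      have a1 := (mem_flag ρ _ u).1 hu1 y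
      have a2 : ρ x (ρ y u - u) - (ρ y u - u) ∈ flag ρ i := hx i _ a1
      have a3 : ρ x u - u ∈ flag ρ (i + 1) := by
        refine hx (i + 1) u ?_
        have : i + 1 + j + 1 = i + j + 1 + 1 := by ring
        rwa [this]
      have a4 := (mem_flag ρ _ _).1 a3 y
      have a5 := (flag ρ i).sub_mem a2 a4
      have e3 : ρ x (ρ y u - u) - (ρ y u - u) - (ρ y (ρ x u - u) - (ρ x u - u)) =
          ρ (x * y * x⁻¹ * y⁻¹) v - v := by
        rw [e1]
        conv_rhs => rw [e2]
        rw [map_sub, map_sub]
        abel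
      rwa [e3] at a5
  rw [eq_bot_iff]
  intro g hg
  obtain ⟨x, hx, rfl⟩ := key n hg
  have htop : flag ρ (0 + n + 1) = ⊤ := by
    have h2 := flag_top hP ρ
    rw [Module.finrank_fin_fun] at h2
    rw [zero_add]
    exact top_le_iff.1 (h2 ▸ flag_mono ρ n)
  have h3 : ρ x = 1 := by
    apply LinearMap.ext
    intro v
    have h4 := hx 0 v (htop ▸ trivial)
    exact sub_eq_zero.1 ((Submodule.mem_bot K).1 h4)
  have h5 : x = 1 := hρ (by rw [h3, map_one])
  rw [h5]
  exact Subgroup.mem_bot.2 rfl

end Pool.Agent.N616.HJ
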