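import Pool.Agent.N206.HJ.Stm

set_option autoImplicit false

namespace Pool.Agent.N616.HJ

open Pool.Agent.N206.HJ MvPowerSeries

section basics

variable (p : ℕ) [Fact p.Prime]

/-- polynomials in `x_0` -/
noncomputable abbrev B0 : Subalgebra (ZMod p) (A p) := Algebra.adjoin (ZMod p) {X 0}

/-- polynomials in `x_0`, `x_1` -/
noncomputable abbrev B1 : Subalgebra (ZMod p) (A p) := Algebra.adjoin (ZMod p) {X 0, X 1}

variable {p}

theorem B0_le : B0 p ≤ B1 p := Algebra.adjoin_mono (by simp)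

theorem X0_mem : (X 0 : A p) ∈ B0 p := Algebra.subset_adjoin (by simp)

theorem X1_mem : (X 1 : A p) ∈ B1 p := Algebra.subset_adjoin (by simp)

theorem poly_of (f : A p) (hf : f ∈ B1 p) :
    ∃ Q : MvPolynomial (Fin 3) (ZMod p), f = (Q : A p) := by
  induction hf using Algebra.adjoin_induction with
  | mem x hx =>
    rcases hx with rfl | hx
    · exact ⟨MvPolynomial.X 0, by simp⟩
    · rw [Set.mem_singleton_iff] at hx
      subst hx
      exact ⟨MvPolynomial.X 1, by simp⟩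
  | algebraMap r => exact ⟨MvPolynomial.C r, by rw [MvPolynomial.coe_C]; rfl⟩
  | add x y _ _ h1 h2 =>
    obtain ⟨a, rfl⟩ := h1
    obtain ⟨b, rfl⟩ := h2
    exact ⟨a + b, by simp⟩
  | mul x y _ _ h1 h2 =>
    obtain ⟨a, rfl⟩ := h1
    obtain ⟨b, rfl⟩ := h2
    exact ⟨a * b, by simp⟩

theorem agree0 (g h : Au p) (h0 : g (X 0) = h (X 0)) (f : A p) (hf : f ∈ B0 p) : g f = h f := by
  have h1 : B0 p ≤ AlgHom.equalizer g.toAlgHom h.toAlgHom := by
    refine AlgHom.adjoin_le_equalizer _ _ ?_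
    intro x hx
    rw [Set.mem_singleton_iff] at hx
    subst hx
    exact h0
  exact h1 hf

theorem agree1 (g h : Au p) (h0 : g (X 0) = h (X 0)) (h1 : g (X 1) = h (X 1)) (f : A p)
    (hf : f ∈ B1 p) : g f = h f := by
  have h2 : B1 p ≤ AlgHom.equalizer g.toAlgHom h.toAlgHom := by
    refine AlgHom.adjoin_le_equalizer _ _ ?_
    intro x hx
    rcases hx with rfl | hx
    · exact h0
    · rw [Set.mem_singleton_iff] at hx
      subst hx
      exact h1
  exact h2 hf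

theorem fix0 (g : Au p) (h0 : g (X 0) = X 0) (f : A p) (hf : f ∈ B0 p) : g f = f :=
  agree0 g 1 h0 f hf

theorem fix1 (g : Au p) (h0 : g (X 0) = X 0) (h1 : g (X 1) = X 1) (f : A p) (hf : f ∈ B1 p) :
    g f = f := agree1 g 1 h0 h1 f hf

theorem map1 (g : Au p) (h0 : g (X 0) = X 0) (c : A p) (hc : c ∈ B0 p) (h1 : g (X 1) = X 1 + c)
    (f : A p) (hf : f ∈ B1 p) : g f ∈ B1 p := by
  induction hf using Algebra.adjoin_induction with
  | mem x hx =>
    rcases hx with rfl | hx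
    · rw [h0]; exact B0_le X0_mem
    · rw [Set.mem_singleton_iff] at hx
      subst hx
      rw [h1]
      exact (B1 p).add_mem X1_mem (B0_le hc)
  | algebraMap r => rw [AlgEquiv.commutes]; exact (B1 p).algebraMap_mem r
  | add x y _ _ h1 h2 => rw [map_add]; exact (B1 p).add_mem h1 h2
  | mul x y _ _ h1 h2 => rw [map_mul]; exact (B1 p).mul_mem h1 h2

theorem fin3 {Q : Fin 3 → Prop} (h0 : Q 0) (h1 : Q 1) (h2 : Q 2) : ∀ i, Q i := by
  intro i
  fin_cases i
  · exact h0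
  · exact h1
  · exact h2

theorem exi (h : S_EXIST p) (c v : A p) (hc : c ∈ M p 2) (hv : v ∈ M p 2) :
    ∃ g ∈ Ga p 1, g (X 0) = X 0 ∧ g (X 1) = X 1 + c ∧ g (X 2) = X 2 + v := by
  obtain ⟨g, hg, h1⟩ := h 1 le_rfl ![0, c, v] (fin3 (Ideal.zero_mem _) hc hv)
  refine ⟨g, hg, ?_, h1 1, h1 2⟩
  have := h1 0
  simpa using this

theorem det3 (h : S_DET2 p) (g g' : Au p) (hg : g ∈ Ga p 1) (hg' : g' ∈ Ga p 1)
    (h0 : g (X 0) = g' (X 0)) (h1 : g (X 1) = g' (X 1)) (h2 : g (X 2) = g' (X 2)) : g = g' :=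
  h.1 g hg g' hg' (fin3 h0 h1 h2)

/-- the substitution `x_1 → 0` -/
noncomputable def sgf (f : A p) : A p := fun α => if α 1 = 0 then coeff α f else 0

theorem sgf_coeff (f : A p) (α : Fin 3 →₀ ℕ) :
    coeff α (sgf f) = if α 1 = 0 then coeff α f else 0 := rfl

/-- the substitution `x_1 → 0` -/
noncomputable def sg : A p →ₐ[ZMod p] A p where
  toFun := sgf
  map_one' := by
    ext α
    rw [sgf_coeff]
    split_ifs with h
    · rfl
    · classical
      rw [coeff_one, if_neg]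
      rintro rfl
      exact h rfl
  map_mul' f g := by
    ext α
    classical
    rw [sgf_coeff, coeff_mul, coeff_mul]
    split_ifs with h
    · refine Finset.sum_congr rfl fun x hx => ?_
      rw [Finset.HasAntidiagonal.mem_antidiagonal] at hx
      have h1 : x.1 1 + x.2 1 = α 1 := by rw [← hx]; rfl
      rw [sgf_coeff, sgf_coeff, if_pos (by omega), if_pos (by omega)]
    · symm
      refine Finset.sum_eq_zero fun x hx => ?_
      rw [Finset.HasAntidiagonal.mem_antidiagonal] at hx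
      have h1 : x.1 1 + x.2 1 = α 1 := by rw [← hx]; rfl
      rw [sgf_coeff, sgf_coeff]
      by_cases h2 : x.1 1 = 0
      · rw [if_neg (show ¬ x.2 1 = 0 by omega), mul_zero]
      · rw [if_neg h2, zero_mul]
  map_zero' := by
    ext α
    rw [sgf_coeff]
    simp
  map_add' f g := by
    ext α
    rw [map_add, sgf_coeff, sgf_coeff, sgf_coeff]
    split_ifs <;> simp
  commutes' r := by
    ext α
    rw [sgf_coeff]
    split_ifs with h
    · rfl
    · classical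
      have e : algebraMap (ZMod p) (A p) r = C r := rfl
      rw [e, coeff_C, if_neg]
      rintro rfl
      exact h rfl

theorem sg_coeff (f : A p) (α : Fin 3 →₀ ℕ) : coeff α (sg f) = if α 1 = 0 then coeff α f else 0 :=
  rfl

theorem sg_X1 : sg (X 1 : A p) = 0 := by
  ext α
  classical
  rw [sg_coeff, coeff_X, coeff_zero]
  split_ifs with h1 h2
  · rw [h2] at h1
    simp at h1
  · rfl
  · rfl

theorem sg_X0 : sg (X 0 : A p) = X 0 := by
  ext α
  classical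
  rw [sg_coeff]
  split_ifs with h1
  · rfl
  · rw [coeff_X, if_neg]
    rintro rfl
    apply h1
    simp

theorem sg_B0 (f : A p) (hf : f ∈ B0 p) : sg f = f := by
  have h1 : B0 p ≤ AlgHom.equalizer (sg (p := p)) (AlgHom.id _ _) := by
    refine AlgHom.adjoin_le_equalizer _ _ ?_
    intro x hx
    rw [Set.mem_singleton_iff] at hx
    subst hx
    exact sg_X0
  exact h1 hf

end basics


section part2

variable (p : ℕ) [Fact p.Prime]

theorem Xpow_inj' {a b : ℕ} (h : (X 0 ^ a : A p) = X 0 ^ b) : a = b := by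
  have h1 := congrArg (coeff (Finsupp.single 0 a)) h
  rw [coeff_X_pow, coeff_X_pow, if_pos rfl] at h1
  split_ifs at h1 with h2
  · have h3 := DFunLike.congr_fun h2 0
    simpa using h3
  · exact absurd h1 one_ne_zero

omit [Fact p.Prime] in
theorem inv_fix (g : Au p) (f : A p) (h : g f = f) : g⁻¹ f = f := by
  conv_lhs => rw [← h]
  exact ap_inv g f

/-- an infinite elementary abelian group -/
def EE : Subgroup (Au p) where
  carrier := {g | g ∈ Ga p 1 ∧ g (X 0) = X 0 ∧ g (X 2) = X 2 ∧ ∃ f ∈ B0 p, g (X 1) = X 1 + f}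
  one_mem' := ⟨Subgroup.one_mem _, rfl, rfl, 0, Subalgebra.zero_mem _, by simp⟩
  mul_mem' := by
    rintro g h ⟨hg, hg0, hg2, f, hf, hg1⟩ ⟨hh, hh0, hh2, f', hf', hh1⟩
    refine ⟨Subgroup.mul_mem _ hg hh, ?_, ?_, f + f', Subalgebra.add_mem _ hf hf', ?_⟩
    · rw [mul_ap, hh0, hg0]
    · rw [mul_ap, hh2, hg2]
    · rw [mul_ap, hh1, map_add, hg1, fix0 g hg0 f' hf', add_assoc]
  inv_mem' := by
    rintro g ⟨hg, hg0, hg2, f, hf, hg1⟩
    refine ⟨Subgroup.inv_mem _ hg, inv_fix p g _ hg0, inv_fix p g _ hg2, -f,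
      Subalgebra.neg_mem _ hf, ?_⟩
    have h1 := ap_inv g (X 1)
    rw [hg1, map_add, inv_fix p g f (fix0 g hg0 f hf)] at h1
    exact eq_add_neg_of_add_eq h1

theorem part2 (h1 : S_EXIST p) (h2 : S_DET2 p) :
    ∃ E : Subgroup (Au p), E ≤ Ga p 1 ∧ (∀ g ∈ E, Poly g) ∧ Infinite E ∧ (∀ g ∈ E, g ^ p = 1) ∧
    ∀ g ∈ E, ∀ h ∈ E, g * h = h * g := by
  refine ⟨EE p, fun g hg => hg.1, ?_, ?_, ?_, ?_⟩
  · rintro g ⟨hg, hg0, hg2, f, hf, hg1⟩
    refine fin3 ⟨MvPolynomial.X 0, by rw [hg0]; simp⟩ ?_ ⟨MvPolynomial.X 2, by rw [hg2]; simp⟩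
    obtain ⟨Q, hQ⟩ := poly_of f (B0_le hf)
    exact ⟨MvPolynomial.X 1 + Q, by rw [hg1, hQ]; simp⟩
  · have h3 : ∀ N : ℕ, ∃ g ∈ Ga p 1, g (X 0) = X 0 ∧ g (X 1) = X 1 + X 0 ^ (N + 2) ∧
        g (X 2) = X 2 + 0 := fun N =>
      exi h1 _ _ (M_anti (by omega) (Xpow_mem 0 (N + 2))) (Ideal.zero_mem _)
    choose g hg hg0 hg1 hg2 using h3
    have hm : ∀ N, g N ∈ EE p := fun N => ⟨hg N, hg0 N, by rw [hg2, add_zero], _,
      Subalgebra.pow_mem _ X0_mem _, hg1 N⟩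
    refine Infinite.of_injective (fun N => (⟨g N, hm N⟩ : EE p)) ?_
    intro a b hab
    have h5 : g a = g b := congrArg Subtype.val hab
    have h6 := hg1 a
    rw [h5, hg1 b] at h6
    have h7 := Xpow_inj' p (add_left_cancel h6)
    omega
  · rintro g ⟨hg, hg0, hg2, f, hf, hg1⟩
    have h3 : ∀ k : ℕ, (g ^ k) (X 0) = X 0 ∧ (g ^ k) (X 2) = X 2 ∧ (g ^ k) (X 1) = X 1 + k • f := by
      intro k
      induction k with
      | zero => exact ⟨rfl, rfl, by simp⟩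
      | succ k ih =>
        obtain ⟨a, b, c⟩ := ih
        rw [pow_succ', mul_ap, mul_ap, mul_ap, a, b, c, hg0, hg2, map_add, hg1, map_nsmul,
          fix0 g hg0 f hf]
        exact ⟨rfl, rfl, by rw [succ_nsmul]; abel⟩
    obtain ⟨a, b, c⟩ := h3 p
    refine det3 h2 _ _ (Subgroup.pow_mem _ hg p) (Subgroup.one_mem _) a ?_ b
    rw [c, ← Nat.cast_smul_eq_nsmul (ZMod p), CharP.cast_eq_zero, zero_smul, add_zero]
    rfl
  · rintro g ⟨hg, hg0, hg2, f, hf, hg1⟩ h ⟨hh, hh0, hh2, f', hf', hh1⟩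
    refine det3 h2 _ _ (Subgroup.mul_mem _ hg hh) (Subgroup.mul_mem _ hh hg) ?_ ?_ ?_
    · rw [mul_ap, mul_ap, hg0, hh0, hg0]
    · rw [mul_ap, mul_ap, hg1, hh1, map_add, map_add, hg1, hh1, fix0 g hg0 f' hf', fix0 h hh0 f hf]
      abel
    · rw [mul_ap, mul_ap, hg2, hh2, hg2]

end part2

section part1

variable (p : ℕ) [Fact p.Prime] (n : ℕ)

/-- the translations of `x_1` -/
noncomputable def UU : Submodule (ZMod p) (A p) :=
  Submodule.span (ZMod p) (Set.range fun j : Fin n => (X 0 ^ ((j : ℕ) + 2) : A p))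

variable {p n}

theorem UU_X {j : ℕ} (hj : j < n) : (X 0 ^ (j + 2) : A p) ∈ UU p n :=
  Submodule.subset_span ⟨⟨j, hj⟩, rfl⟩

theorem UU_B0 {c : A p} (hc : c ∈ UU p n) : c ∈ B0 p := by
  have h : UU p n ≤ Subalgebra.toSubmodule (B0 p) := by
    refine Submodule.span_le.2 ?_
    rintro _ ⟨j, rfl⟩
    exact Subalgebra.pow_mem _ X0_mem _
  exact h hc

theorem span_M2 {S : Set (A p)} (hS : ∀ x ∈ S, x ∈ M p 2) {c : A p}
    (hc : c ∈ Submodule.span (ZMod p) S) : c ∈ M p 2 := by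
  induction hc using Submodule.span_induction with
  | mem x hx => exact hS x hx
  | zero => exact Ideal.zero_mem _
  | add x y _ _ h1 h2 => exact Ideal.add_mem _ h1 h2
  | smul a x _ h =>
    rw [MvPowerSeries.smul_eq_C_mul]
    exact M_mul_left h

theorem UU_M2 {c : A p} (hc : c ∈ UU p n) : c ∈ M p 2 := by
  refine span_M2 ?_ hc
  rintro _ ⟨j, rfl⟩
  exact M_anti (by omega) (Xpow_mem 0 ((j : ℕ) + 2))

theorem span_finite {S : Set (A p)} (hS : S.Finite) :
    Finite ↥(Submodule.span (ZMod p) S) := by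
  have h : Module.Finite (ZMod p) ↥(Submodule.span (ZMod p) S) :=
    FiniteDimensional.span_of_finite (ZMod p) hS
  exact Module.finite_of_finite (ZMod p)

theorem UU_fin : (UU p n : Set (A p)).Finite := by
  have h : Finite ↥(UU p n) := span_finite (Set.finite_range _)
  exact Set.toFinite _

/-- the nonzero elements of `UU` -/
noncomputable def Us (p : ℕ) [Fact p.Prime] (n : ℕ) : Finset (A p) := by
  classical
  exact (UU_fin (p := p) (n := n)).toFinset.erase 0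

theorem mem_Us {d : A p} : d ∈ Us p n ↔ d ≠ 0 ∧ d ∈ UU p n := by
  classical
  unfold Us
  rw [Finset.mem_erase, Set.Finite.mem_toFinset]
  rfl

/-- the translates of the polynomial `h` -/
noncomputable def hh (p : ℕ) [Fact p.Prime] (n : ℕ) (c : A p) : A p :=
  X 0 ^ 2 * ∏ d ∈ Us p n, (X 1 + c - d)

theorem hh_B1 {c : A p} (hc : c ∈ UU p n) : hh p n c ∈ B1 p := by
  refine Subalgebra.mul_mem _ (Subalgebra.pow_mem _ (B0_le X0_mem) _) ?_
  refine Subalgebra.prod_mem _ fun d hd => ?_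
  exact Subalgebra.sub_mem _ (Subalgebra.add_mem _ X1_mem (B0_le (UU_B0 hc)))
    (B0_le (UU_B0 (mem_Us.1 hd).2))

theorem hh_M2 (c : A p) : hh p n c ∈ M p 2 := M_mul_right (Xpow_mem 0 2)

theorem hh_map (g : Au p) (h0 : g (X 0) = X 0) {c c' : A p} (hc : c ∈ UU p n)
    (h1 : g (X 1) = X 1 + c') : g (hh p n c) = hh p n (c' + c) := by
  unfold hh
  rw [map_mul, map_pow, h0, map_prod]
  congr 1
  refine Finset.prod_congr rfl fun d hd => ?_
  rw [map_sub, map_add, h1, fix0 g h0 c (UU_B0 hc), fix0 g h0 d (UU_B0 (mem_Us.1 hd).2), add_assoc]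

theorem hh_sg {c : A p} (hc : c ∈ UU p n) :
    sg (hh p n c) = X 0 ^ 2 * ∏ d ∈ Us p n, (c - d) := by
  unfold hh
  rw [map_mul, map_pow, sg_X0, map_prod]
  congr 1
  refine Finset.prod_congr rfl fun d hd => ?_
  rw [map_sub, map_add, sg_X1, sg_B0 c (UU_B0 hc), sg_B0 d (UU_B0 (mem_Us.1 hd).2), zero_add]

theorem hh_sg_ne {c : A p} (hc : c ∈ UU p n) (h : c ≠ 0) : sg (hh p n c) = 0 := by
  rw [hh_sg hc, Finset.prod_eq_zero (mem_Us.2 ⟨h, hc⟩) (sub_self c), mul_zero]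

theorem hh_sg_zero : sg (hh p n 0) ≠ 0 := by
  rw [hh_sg (Submodule.zero_mem _)]
  refine mul_ne_zero (pow_ne_zero 2 ?_) (Finset.prod_ne_zero_iff.2 fun d hd => ?_)
  · intro h
    have h1 := congrArg (coeff (Finsupp.single 0 1)) h
    rw [coeff_index_single_self_X, coeff_zero] at h1
    exact one_ne_zero h1
  · rw [zero_sub]
    exact neg_ne_zero.2 (mem_Us.1 hd).1

variable (p n)

/-- the translations of `x_2` -/
noncomputable def VV : Submodule (ZMod p) (A p) :=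
  Submodule.span (ZMod p) ((hh p n) '' (UU p n : Set (A p)))

variable {p n}

theorem VV_B1 {v : A p} (hv : v ∈ VV p n) : v ∈ B1 p := by
  have h : VV p n ≤ Subalgebra.toSubmodule (B1 p) := by
    refine Submodule.span_le.2 ?_
    rintro _ ⟨c, hc, rfl⟩
    exact hh_B1 hc
  exact h hv

theorem VV_M2 {v : A p} (hv : v ∈ VV p n) : v ∈ M p 2 := by
  refine span_M2 ?_ hv
  rintro _ ⟨c, _, rfl⟩
  exact hh_M2 c

theorem VV_st (g : Au p) (h0 : g (X 0) = X 0) {c' : A p} (hc' : c' ∈ UU p n)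
    (h1 : g (X 1) = X 1 + c') {v : A p} (hv : v ∈ VV p n) : g v ∈ VV p n := by
  induction hv using Submodule.span_induction with
  | mem x hx =>
    obtain ⟨c, hc, rfl⟩ := hx
    rw [hh_map g h0 hc h1]
    exact Submodule.subset_span ⟨c' + c, Submodule.add_mem _ hc' hc, rfl⟩
  | zero => rw [map_zero]; exact Submodule.zero_mem _
  | add x y _ _ h1 h2 => rw [map_add]; exact Submodule.add_mem _ h1 h2
  | smul a x _ h => rw [map_smul]; exact Submodule.smul_mem _ a h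

variable (p n)

/-- a finite `p`-group of large class -/
def PP : Subgroup (Au p) where
  carrier := {g | g ∈ Ga p 1 ∧ g (X 0) = X 0 ∧ (∃ c ∈ UU p n, g (X 1) = X 1 + c) ∧
    ∃ v ∈ VV p n, g (X 2) = X 2 + v}
  one_mem' := ⟨Subgroup.one_mem _, rfl, ⟨0, Submodule.zero_mem _, by simp⟩,
    0, Submodule.zero_mem _, by simp⟩
  mul_mem' := by
    rintro g h ⟨hg, hg0, ⟨c, hc, hg1⟩, v, hv, hg2⟩ ⟨hh, hh0, ⟨c', hc', hh1⟩, v', hv', hh2⟩
    refine ⟨Subgroup.mul_mem _ hg hh, ?_, ⟨c + c', Submodule.add_mem _ hc hc', ?_⟩, v + g v',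
      Submodule.add_mem _ hv (VV_st g hg0 hc hg1 hv'), ?_⟩
    · rw [mul_ap, hh0, hg0]
    · rw [mul_ap, hh1, map_add, hg1, fix0 g hg0 c' (UU_B0 hc'), add_assoc]
    · rw [mul_ap, hh2, map_add, hg2, add_assoc]
  inv_mem' := by
    rintro g ⟨hg, hg0, ⟨c, hc, hg1⟩, v, hv, hg2⟩
    have i0 : g⁻¹ (X 0) = X 0 := inv_fix p g _ hg0
    have i1 : g⁻¹ (X 1) = X 1 + -c := by
      have h1 := ap_inv g (X 1)
      rw [hg1, map_add, inv_fix p g c (fix0 g hg0 c (UU_B0 hc))] at h1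
      exact eq_add_neg_of_add_eq h1
    refine ⟨Subgroup.inv_mem _ hg, i0, ⟨-c, Submodule.neg_mem _ hc, i1⟩, -(g⁻¹ v),
      Submodule.neg_mem _ (VV_st g⁻¹ i0 (Submodule.neg_mem _ hc) i1 hv), ?_⟩
    have h1 := ap_inv g (X 2)
    rw [hg2, map_add] at h1
    exact eq_add_neg_of_add_eq h1

variable {p n}

theorem PP_finite (h2 : S_DET2 p) : Finite (PP p n) := by
  have hU : Finite ↥(UU p n) := span_finite (Set.finite_range _)
  have hV : Finite ↥(VV p n) := span_finite (UU_fin.image _)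
  have h1 : ∀ g : PP p n, (g : Au p) (X 1) - X 1 ∈ UU p n := by
    rintro ⟨g, hg, hg0, ⟨c, hc, hg1⟩, v, hv, hg2⟩
    show g (X 1) - X 1 ∈ UU p n
    rw [hg1, add_sub_cancel_left]
    exact hc
  have h3 : ∀ g : PP p n, (g : Au p) (X 2) - X 2 ∈ VV p n := by
    rintro ⟨g, hg, hg0, ⟨c, hc, hg1⟩, v, hv, hg2⟩
    show g (X 2) - X 2 ∈ VV p n
    rw [hg2, add_sub_cancel_left]
    exact hv
  refine Finite.of_injective
    (fun g : PP p n => ((⟨_, h1 g⟩, ⟨_, h3 g⟩) : ↥(UU p n) × ↥(VV p n))) ?_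
  intro g g' hgg
  have e1 := congrArg (fun x : ↥(UU p n) × ↥(VV p n) => (x.1 : A p)) hgg
  have e2 := congrArg (fun x : ↥(UU p n) × ↥(VV p n) => (x.2 : A p)) hgg
  dsimp only at e1 e2
  apply Subtype.ext
  exact det3 h2 _ _ g.2.1 g'.2.1 (by rw [g.2.2.1, g'.2.2.1]) (sub_left_injective e1)
    (sub_left_injective e2)

theorem PP_pgroup (h2 : S_DET2 p) : IsPGroup p (PP p n) := by
  rintro ⟨g, hg⟩
  refine ⟨2, ?_⟩
  apply Subtype.ext
  show g ^ (p ^ 2) = 1
  obtain ⟨hg1, hg0, ⟨c, hc, hgc⟩, v, hv, hgv⟩ := hg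
  have a1 : ∀ k : ℕ, (g ^ k) (X 1) = X 1 + k • c := by
    intro k
    induction k with
    | zero => simp
    | succ k ih =>
      rw [pow_succ', mul_ap, ih, map_add, hgc, map_nsmul, fix0 g hg0 c (UU_B0 hc), succ_nsmul]
      abel
  have hp : (g ^ p) (X 1) = X 1 := by
    rw [a1, ← Nat.cast_smul_eq_nsmul (ZMod p), CharP.cast_eq_zero, zero_smul, add_zero]
  have hgm : g ^ p ∈ PP p n :=
    Subgroup.pow_mem _ (show g ∈ PP p n from ⟨hg1, hg0, ⟨c, hc, hgc⟩, v, hv, hgv⟩) p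
  obtain ⟨b1, b0, _, w, hw, bw⟩ := hgm
  have a2 : ∀ k : ℕ, ((g ^ p) ^ k) (X 0) = X 0 ∧ ((g ^ p) ^ k) (X 1) = X 1 ∧
      ((g ^ p) ^ k) (X 2) = X 2 + k • w := by
    intro k
    induction k with
    | zero => exact ⟨rfl, rfl, by simp⟩
    | succ k ih =>
      obtain ⟨i0, i1, i2⟩ := ih
      rw [pow_succ', mul_ap, mul_ap, mul_ap, i0, i1, i2, b0, hp, map_add, bw, map_nsmul,
        fix1 (g ^ p) b0 hp w (VV_B1 hw), succ_nsmul]
      exact ⟨rfl, rfl, by abel⟩
  obtain ⟨c0, c1, c2⟩ := a2 p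
  rw [pow_two, pow_mul]
  refine det3 h2 _ _ (Subgroup.pow_mem _ b1 p) (Subgroup.one_mem _) c0 c1 ?_
  rw [c2, ← Nat.cast_smul_eq_nsmul (ZMod p), CharP.cast_eq_zero, zero_smul, add_zero]
  rfl

open Classical in
theorem PP_lcs (h1 : S_EXIST p) (j : ℕ) (hj : j ≤ n) :
    ∃ w ∈ VV p n, ∃ s ∈ (PP p n).lowerCentralSeries j, s (X 0) = X 0 ∧ s (X 1) = X 1 ∧
      s (X 2) = X 2 + w ∧
      ∀ c ∈ UU p n, (∀ i < j, coeff (Finsupp.single 0 (i + 2)) c = 0) → ∀ g : Au p,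
        g (X 0) = X 0 → g (X 1) = X 1 + c → sg (g w) = if c = 0 then sg (hh p n 0) else 0 := by
  induction j with
  | zero =>
    have hm : hh p n 0 ∈ VV p n := Submodule.subset_span ⟨0, Submodule.zero_mem _, rfl⟩
    obtain ⟨s, hs, s0, s1, s2⟩ := exi h1 0 (hh p n 0) (Ideal.zero_mem _) (hh_M2 0)
    refine ⟨hh p n 0, hm, s, ⟨hs, s0, ⟨0, Submodule.zero_mem _, s1⟩, _, hm, s2⟩, s0,
      by rw [s1, add_zero], s2, ?_⟩
    intro c hc _ g g0 g1
    rw [hh_map g g0 (Submodule.zero_mem _) g1, add_zero]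
    split_ifs with h
    · rw [h]
    · exact hh_sg_ne hc h
  | succ j ih =>
    obtain ⟨w, hw, s, hs, s0, s1, s2, hD⟩ := ih (by omega)
    obtain ⟨e, he, e0, e1, e2⟩ := exi h1 (X 0 ^ (j + 2)) 0 (UU_M2 (UU_X (n := n) (by omega)))
      (Ideal.zero_mem _)
    have hf : (X 0 ^ (j + 2) : A p) ∈ UU p n := UU_X (by omega)
    have heP : e ∈ PP p n := ⟨he, e0, ⟨_, hf, e1⟩, 0, Submodule.zero_mem _, e2⟩
    have hew : e w ∈ VV p n := VV_st e e0 hf e1 hw
    have is0 : s⁻¹ (X 0) = X 0 := inv_fix p s _ s0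
    have is1 : s⁻¹ (X 1) = X 1 := inv_fix p s _ s1
    have ie0 : e⁻¹ (X 0) = X 0 := inv_fix p e _ e0
    have ie1 : e⁻¹ (X 1) = X 1 + -(X 0 ^ (j + 2)) := by
      have h1 := ap_inv e (X 1)
      rw [e1, map_add, inv_fix p e _ (fix0 e e0 _ (UU_B0 hf))] at h1
      exact eq_add_neg_of_add_eq h1
    have ie2 : e⁻¹ (X 2) = X 2 := inv_fix p e _ (by rw [e2, add_zero])
    have is2 : s⁻¹ (X 2) = X 2 + -w := by
      have h1 := ap_inv s (X 2)
      rw [s2, map_add, inv_fix p s w (fix1 s s0 s1 w (VV_B1 hw))] at h1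
      exact eq_add_neg_of_add_eq h1
    refine ⟨w - e w, Submodule.sub_mem _ hw hew, s * e * s⁻¹ * e⁻¹, ?_, ?_, ?_, ?_, ?_⟩
    · exact Subgroup.commutator_mem_commutator hs heP
    · rw [mul_ap, mul_ap, mul_ap, ie0, is0, e0, s0]
    · rw [mul_ap, mul_ap, mul_ap, ie1, map_add, map_neg, is1,
        fix0 s⁻¹ is0 _ (UU_B0 hf), map_add, map_neg, e1, fix0 e e0 _ (UU_B0 hf), map_add, map_neg,
        map_add, s1, fix0 s s0 _ (UU_B0 hf), add_neg_cancel_right]
    · rw [mul_ap, mul_ap, mul_ap, ie2, is2, map_add, map_neg, e2, add_zero, map_add, map_neg, s2,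
        fix1 s s0 s1 (e w) (VV_B1 hew), add_assoc, sub_eq_add_neg]
    · intro c hc hcoef g g0 g1
      have k1 := hD c hc (fun i hi => hcoef i (by omega)) g g0 g1
      have k2 := hD (c + X 0 ^ (j + 2)) (Submodule.add_mem _ hc hf) (fun i hi => by
        rw [map_add, hcoef i (by omega), coeff_X_pow, if_neg, add_zero]
        intro h
        have := DFunLike.congr_fun h 0
        simp at this
        omega) (g * e) (by rw [mul_ap, e0, g0]) (by
          rw [mul_ap, e1, map_add, g1, fix0 g g0 _ (UU_B0 hf), add_assoc])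
      have k3 : c + X 0 ^ (j + 2) ≠ 0 := by
        intro h
        have h4 := congrArg (coeff (Finsupp.single 0 (j + 2))) h
        rw [map_add, hcoef j (by omega), coeff_X_pow, if_pos rfl, zero_add, coeff_zero] at h4
        exact one_ne_zero h4
      rw [if_neg k3, mul_ap] at k2
      rw [map_sub, map_sub, k1, k2, sub_zero]

end part1

theorem t_UNB (p : ℕ) [Fact p.Prime] (h1 : S_EXIST p) (h2 : S_DET2 p) : S_UNB p := by
  refine ⟨fun n => ⟨PP p n, fun g hg => hg.1, ?_, PP_finite h2, PP_pgroup h2, ?_⟩, part2 p h1 h2⟩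
  · rintro g ⟨hg, hg0, ⟨c, hc, hg1⟩, v, hv, hg2⟩
    refine fin3 ⟨MvPolynomial.X 0, by rw [hg0]; simp⟩ ?_ ?_
    · obtain ⟨Q, hQ⟩ := poly_of c (B0_le (UU_B0 hc))
      exact ⟨MvPolynomial.X 1 + Q, by rw [hg1, hQ]; simp⟩
    · obtain ⟨Q, hQ⟩ := poly_of v (VV_B1 hv)
      exact ⟨MvPolynomial.X 2 + Q, by rw [hg2, hQ]; simp⟩
  · intro hbot
    obtain ⟨w, _, s, hs, _, _, s2, hD⟩ := PP_lcs (n := n) h1 n le_rfl
    rw [hbot, Subgroup.mem_bot] at hs
    have k1 := hD 0 (Submodule.zero_mem _) (fun i _ => coeff_zero _) 1 rfl (by simp)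
    rw [if_pos rfl] at k1
    have k2 : w = 0 := by
      rw [hs] at s2
      have h3 : (X 2 : A p) = X 2 + w := s2
      exact left_eq_add.1 h3
    rw [k2, map_zero, map_zero] at k1
    exact hh_sg_zero k1.symm

end Pool.Agent.N616.HJ
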